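import Pool.Agent.H89.SP.UPF
import Pool.Agent.H89.SP.LBF
import Pool.Agent.H89.SP.L.TREE
import Pool.Agent.H89.SP.L.SMALL

set_option autoImplicit false

/-!
# The minimal number of nonzero entries of spectrally arbitrary patterns: the sharp constant 7/4

Lower bound: the characteristic polynomial is the product of those of the strong components. If a component with
`b` vertices has at most `2b - 2` arcs, its characteristic polynomials satisfy an algebraic equation (scaling a
spanning tree to 1), so it cannot realize the divisors of degree `b` of a generic polynomial. The remaining components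
with less than `7b/4` arcs have `b ≤ 3` and are excluded by the trace or by `X^n`.

Upper bound: the matrices with the pattern `P4` (seven nonzero entries) have, up to diagonal similarity, the
characteristic polynomials `(X^2 - u)(X - a)(X - b) - v` with nonzero `u, a, b, v`. In characteristic different from 5
they contain `(X - α)^4` for every `α`, and four different eigenvalues are possible under generic
conditions. So among 34 elements of an algebraically closed field (with repetitions) there are always four which
form the spectrum of a matrix with this pattern. In characteristic 5 one takes an analogous pattern of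
order 6 with 11 nonzero entries.
-/

namespace Pool.Agent.Results.MP_8c7c0e_co.SharpSevenQuarters

open Polynomial

/-- an `n × n` zero-nonzero pattern (`true`: nonzero) -/
abbrev Pattern (n : ℕ) : Type := Matrix (Fin n) (Fin n) Bool

/-- the matrix `A` realizes the pattern `P` -/
def Realizes {F : Type} [Field F] {n : ℕ} (A : Matrix (Fin n) (Fin n) F) (P : Pattern n) : Prop :=
  ∀ i j, A i j ≠ 0 ↔ P i j = true

/-- every monic polynomial of degree `n` is the characteristic polynomial of a realization -/
def SpectrallyArbitrary (F : Type) [Field F] {n : ℕ} (P : Pattern n) : Prop :=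
  ∀ p : F[X], p.Monic → p.natDegree = n → ∃ A : Matrix (Fin n) (Fin n) F, Realizes A P ∧ A.charpoly = p

/-- the number of nonzero entries -/
def entries {n : ℕ} (P : Pattern n) : ℕ :=
  (Finset.univ.filter (fun ij : Fin n × Fin n => P ij.1 ij.2 = true)).card

/-- Let `F` be an infinite field. Every spectrally arbitrary pattern of order `n` over `F` has at least `7n/4`
nonzero entries. Let `F` be algebraically closed. If the characteristic is not 5, then for every `n ≥ 30`
there is a spectrally arbitrary pattern of order `n` over `F` with `2n - ⌊(n-30)/4⌋` nonzero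
entries. If it is 5, then for every `n ≥ 80` there is one with `2n - ⌊(n-80)/6⌋` nonzero entries. -/
theorem result :
    (∀ (F : Type) [Field F] [Infinite F] (n : ℕ) (P : Pattern n), SpectrallyArbitrary F P →
      7 * n ≤ 4 * entries P) ∧
    (∀ (F : Type) [Field F] [IsAlgClosed F] (n : ℕ), ringChar F ≠ 5 → 30 ≤ n →
      ∃ P : Pattern n, SpectrallyArbitrary F P ∧ entries P = 2 * n - (n - 30) / 4) ∧
    (∀ (F : Type) [Field F] [IsAlgClosed F] (n : ℕ), ringChar F = 5 → 80 ≤ n →
      ∃ P : Pattern n, SpectrallyArbitrary F P ∧ entries P = 2 * n - (n - 80) / 6) := by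
  have hchar : ∀ (F : Type) [Field F], (5 : F) = 0 ↔ ringChar F = 5 := by
    intro F _
    have h1 : ((5 : ℕ) : F) = 0 ↔ ringChar F ∣ 5 := ringChar.spec F 5
    push_cast at h1
    rw [h1]
    constructor
    · intro h
      rcases (Nat.dvd_prime (by norm_num)).1 h with h2 | h2
      · exfalso
        have : CharP F 1 := by rw [← h2]; infer_instance
        exact CharP.false_of_nontrivial_of_char_one (R := F)
      · exact h2
    · intro h; rw [h]
  refine ⟨?_, ?_, ?_⟩
  · intro F _ _ n P hP
    have hsa : ∀ p : F[X], p.Monic → p.natDegree = Fintype.card (Fin n) →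
        ∃ A : Matrix (Fin n) (Fin n) F, Pool.Agent.H89.SP.LB.Exact P A ∧ A.charpoly = p := by
      intro p hp hd
      obtain ⟨A, hA, hAp⟩ := hP p hp (by simpa using hd)
      exact ⟨A, hA, hAp⟩
    have h := Pool.Agent.H89.SP.LBF.lower74 Pool.Agent.H89.SP.L.TREE.main
      Pool.Agent.H89.SP.L.SMALL.main F P hsa
    rw [Fintype.card_fin] at h
    exact h
  · intro F _ _ n h5 hn
    obtain ⟨a, ⟨Q, hQ, hQa⟩, ha⟩ := Pool.Agent.H89.SP.UPF.up4 (F := F) (fun h0 => h5 ((hchar F).1 h0)) n hn
    refine ⟨Q, fun p hp hd => ?_, ?_⟩
    · obtain ⟨A, hA, hAp⟩ := hQ p hp (by simpa using hd)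
      exact ⟨A, hA, hAp⟩
    · have : entries Q = a := hQa
      omega
  · intro F _ _ n h5 hn
    obtain ⟨a, ⟨Q, hQ, hQa⟩, ha⟩ := Pool.Agent.H89.SP.UPF.up6 (F := F) ((hchar F).2 h5) n hn
    refine ⟨Q, fun p hp hd => ?_, ?_⟩
    · obtain ⟨A, hA, hAp⟩ := hQ p hp (by simpa using hd)
      exact ⟨A, hA, hAp⟩
    · have : entries Q = a := hQa
      omega

end Pool.Agent.Results.MP_8c7c0e_co.SharpSevenQuarters
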